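import Pool.Agent.H691R3.SL.Defs

/-!
# Simple Lebesgue spectrum on a probability space (Banach's problem): definitions
-/

namespace Pool.Agent.H728R2.BL

open MeasureTheory Set Filter Topology Pool.Agent.H691R3.SL
open scoped Real BigOperators

noncomputable section

/-- the character `e(t) = exp(2πit)` -/
def e (t : ℝ) : ℂ := Complex.exp (2 * π * t * Complex.I)

/-- the weight `|e(x) - 1|²` -/
def W (x : ℝ) : ℝ := ‖e x - 1‖ ^ 2

/-- exponential polynomial of a finite set of positions -/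
def pol (A : Finset ℕ) (x : ℝ) : ℂ := ∑ a ∈ A, e (a * x)

/-- evaluation of a trigonometric polynomial -/
def ev (p : ℤ →₀ ℂ) (x : ℝ) : ℂ := p.sum fun n a => a * e (n * x)

/-- coefficient norm -/
def l1 (p : ℤ →₀ ℂ) : ℝ := p.sum fun _ a => ‖a‖

/-- A level: a finite set of columns, their common height and the measure of each base. -/
structure Lev where
  Θ : Type
  [ft : Fintype Θ]
  [de : DecidableEq Θ]
  [ne : Nonempty Θ]
  h : ℕ
  hpos : 0 < h
  β : ℝ
  βpos : 0 < β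

attribute [instance] Lev.ft Lev.de Lev.ne

/-- total measure of the columns -/
def Lev.mass (L : Lev) : ℝ := L.β * Fintype.card L.Θ * L.h

/-- interior spectral density of `∑ q_c(U) 1_{B_c}` -/
def Lev.E (L : Lev) (q : L.Θ → ℝ → ℂ) (x : ℝ) : ℝ := L.β * ∑ c, ‖q c x‖ ^ 2

/-- One step of the cutting and stacking construction. Every new column is a sequence of `M` old
columns, whose names `cl i` do not depend on the new column, at the positions `pos c' i`. -/
structure DStep (L L' : Lev) where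
  M : ℕ
  hM : 2 ≤ M
  cl : Fin M → L.Θ
  bal : ∀ c, (Finset.univ.filter fun i => cl i = c).card * Fintype.card L.Θ = M
  pos : L'.Θ → Fin M → ℕ
  pos0 : ∀ c' (i : Fin M), (i : ℕ) = 0 → pos c' i = 0
  sep : ∀ c' (i j : Fin M), i < j → pos c' i + L.h ≤ pos c' j
  top : ∀ c' i, pos c' i + L.h ≤ L'.h
  hβ : L'.β * M * Fintype.card L'.Θ = L.β * Fintype.card L.Θ

/-- transport of a family of (exponential) polynomials to the next level -/
def DStep.push {L L' : Lev} (σ : DStep L L') (q : L.Θ → ℝ → ℂ) (c' : L'.Θ) (x : ℝ) : ℂ :=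
  ∑ i, e (σ.pos c' i * x) * q (σ.cl i) x

/-- transport of sets of levels to the next level -/
def DStep.pushS {L L' : Lev} (σ : DStep L L') (A : L.Θ → Finset ℕ) (c' : L'.Θ) : Finset ℕ :=
  Finset.univ.biUnion fun i => (A (σ.cl i)).image (fun a => σ.pos c' i + a)

/-- the set of levels which belong to the base of level `0` -/
def Fset (L : ℕ → Lev) (σ : ∀ k, DStep (L k) (L (k + 1))) : ∀ k, (L k).Θ → Finset ℕ
  | 0 => fun _ => {0}
  | k + 1 => (σ k).pushS (Fset L σ k)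

/-- density of the base of level `0`, computed at level `k` -/
def rho (L : ℕ → Lev) (σ : ∀ k, DStep (L k) (L (k + 1))) (k : ℕ) (x : ℝ) : ℝ :=
  (L k).E (fun c => pol (Fset L σ k c)) x

/-- the decoding error: how far `(U-1)(p(U) f - 1_{B_c})` is from `0`, for `c` a column of `L`;
`A` describes `f` on the level `L` -/
def decErr {L L' : Lev} (σ : DStep L L') (A : L.Θ → Finset ℕ) (c : L.Θ) (p : ℤ →₀ ℂ) (m : ℕ) : ℝ :=
  (∫ x in (0:ℝ)..1, W x * L'.E (fun c' x => ev p x * σ.push (fun d => pol (A d)) c' x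
      - σ.push (fun d _ => if d = c then 1 else 0) c' x) x)
    + 4 * (l1 p + 1) ^ 2 * (2 * m + 1) / L'.h

/-- A good sequence of levels. -/
structure Good (L : ℕ → Lev) (σ : ∀ k, DStep (L k) (L (k + 1))) : Prop where
  card0 : Fintype.card (L 0).Θ = 1
  h0 : (L 0).h = 1
  mass : Tendsto (fun k => (L k).mass) atTop (𝓝 1)
  height : Tendsto (fun k => (L k).h) atTop atTop
  dec : ∀ k, ∀ c : (L k).Θ, ∃ (p : ℤ →₀ ℂ) (m : ℕ), (∀ n ∈ p.support, |n| ≤ m) ∧
    decErr (σ k) (Fset L σ k) c p m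
      ≤ (1 / (((k : ℝ) + 1) * (L k).h * Fintype.card (L k).Θ)) ^ 2
  dens : ∃ r : ℝ → ℝ, (∀ x, 0 ≤ r x) ∧ IntervalIntegrable r volume 0 1 ∧
    (∀ᵐ x ∂(volume.restrict (Set.Ioc (0:ℝ) 1)), 0 < r x) ∧
    Tendsto (fun k => ∫ x in (0:ℝ)..1, |W x * rho L σ k x - r x|) atTop (𝓝 0)

/-! ## Inside a phase: fibred columns -/

/-- Columns over the level `L`: every column of `M` consists of `r` copies of one column of `L`. -/
structure Fib (L : Lev) where
  M : Lev
  r : ℕ
  hr : 1 ≤ r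
  cls : M.Θ → L.Θ
  Q : M.Θ → Fin r → ℕ
  Q0 : ∀ c' (i : Fin r), (i : ℕ) = 0 → Q c' i = 0
  sep : ∀ c' (i j : Fin r), i < j → Q c' i + L.h ≤ Q c' j
  top : ∀ c' i, Q c' i + L.h ≤ M.h
  fib : ∀ c, (Finset.univ.filter fun c' => cls c' = c).card * Fintype.card L.Θ = Fintype.card M.Θ
  hβ : M.β * r * Fintype.card M.Θ = L.β * Fintype.card L.Θ

/-- the exponential polynomial of a fibred column -/
def Fib.qp {L : Lev} (F : Fib L) (c' : F.M.Θ) (x : ℝ) : ℂ := ∑ i, e (F.Q c' i * x)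

/-- class densities -/
def Fib.D {L : Lev} (F : Fib L) (c : L.Θ) (x : ℝ) : ℝ :=
  F.M.β / L.β * ∑ c' ∈ Finset.univ.filter (fun c' => F.cls c' = c), ‖F.qp c' x‖ ^ 2

/-- `Reach L h D κ`: there are columns of height `h` over `L` with class densities `D`, and `κ` is
the measure of the union of their bases -/
def Reach (L : Lev) (h : ℕ) (D : L.Θ → ℝ → ℝ) (κ : ℝ) : Prop :=
  ∃ F : Fib L, F.M.h = h ∧ (∀ c x, F.D c x = D c x) ∧ F.M.β * Fintype.card F.M.Θ = κ

/-- dissociated frequencies -/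
def Diss {d : ℕ} (K : ℕ) (N : Fin d → ℕ) : Prop :=
  ∀ m : Fin d → ℤ, m ≠ 0 → (∀ i, |m i| ≤ 4) → (K : ℤ) < |∑ i, m i * (N i : ℤ)|

/-- heights of the doubling towers with gaps `S` -/
def hts (h : ℕ) (S : ℕ → ℕ) : ℕ → ℕ
  | 0 => h
  | i + 1 => 2 * (hts h S i + S i)

/-- the random Riesz factor of a block -/
def GG {d : ℕ} {R : Type} [Fintype R] (N : Fin d → ℕ) (b : R → Fin d → ℤ) (x : ℝ) : ℝ :=
  (∑ a, ∏ i, (1 + cs ((N i : ℤ) + b a i) x)) / (Fintype.card R : ℝ)

/-- even real trigonometric polynomials (`Pool.Agent.H691R3.SL.tp`) with non-negative values -/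
def TPpos (g : ℝ → ℝ) : Prop := (∀ x, 0 ≤ g x) ∧ ∃ (m : ℕ) (a : ℕ → ℝ), ∀ x, g x = tp m a x

/-- potential of the set `C` of classes -/
def Pot {ι : Type} [Fintype ι] [DecidableEq ι] (t : ι → ℝ → ℝ) (C : Finset ι) : ℝ :=
  ∫ x in (0:ℝ)..1, hm (∑ c ∈ C, t c x) (∑ c ∈ Cᶜ, t c x)

end

end Pool.Agent.H728R2.BL
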