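import Pool.Agent.H728R2.BL.Defs

/-!
# Definitions of the stub file
-/

namespace Pool.Agent.H728R2.BL

open MeasureTheory Set Filter Topology Pool.Agent.H691R3.SL
open scoped Real BigOperators

noncomputable section

/-- positions of `n` blocks of height `h` with gaps `u i` -/
def posn {n H : ℕ} (h : ℕ) (u : Fin n → Fin H) (i : Fin n) : ℕ :=
  i * h + ∑ j ∈ Finset.univ.filter (fun j => j < i), (u j : ℕ)

/-- average of one gap -/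
def phi (H : ℕ) (x : ℝ) : ℂ := (∑ s ∈ Finset.range H, e (s * x)) / H

/-- A sequence with all properties except the normalisation of the mass. -/
structure PreGood (L : ℕ → Lev) (σ : ∀ k, DStep (L k) (L (k + 1))) : Prop where
  card0 : Fintype.card (L 0).Θ = 1
  h0 : (L 0).h = 1
  β0 : (L 0).β = 1
  grow : ∀ k, 2 * (L k).h ≤ (L (k + 1)).h
  h1 : 16 ≤ (L 1).h
  mass : ∀ k, 1 ≤ k → (L (k + 1)).mass ≤ (L k).mass * (1 + 2 / Real.sqrt (L k).h) + (1 / 2) ^ k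
  dec : ∀ k, ∀ c : (L k).Θ, ∃ (p : ℤ →₀ ℂ) (m : ℕ), (∀ n ∈ p.support, |n| ≤ m) ∧
    decErr (σ k) (Fset L σ k) c p m
      ≤ (1 / (((k : ℝ) + 1) * (L k).h * Fintype.card (L k).Θ)) ^ 2
  tau : ∃ τ : ℕ → ℝ, (∀ k, 0 < τ k) ∧ (∀ k, τ (k + 1) ≤ τ k) ∧
    (∀ k, volume {x : ℝ | x ∈ Set.Icc (0:ℝ) 1 ∧ W x * rho L σ k x ≤ τ k}
      ≤ ENNReal.ofReal ((1 / 2) ^ k)) ∧
    ∀ k, 1 ≤ k → ∃ gg : ℝ → ℝ, (∀ x, 0 ≤ gg x) ∧ Continuous gg ∧
      (∫ x in (0:ℝ)..1, gg x) ≤ (1 / 4) ^ k * min 1 (τ k) ∧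
      ∀ x, W x * |rho L σ (k + 1) x - rho L σ k x|
        ≤ 80 / Real.sqrt (L k).h * rho L σ k x + gg x

end

end Pool.Agent.H728R2.BL
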